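import Mathlib

set_option autoImplicit false

namespace Pool.Agent.Results.MP_63f2bb_co.Unbalanced

/-- `W` is invariant under the coordinate action `(σ x) (σ i) = x i` of `S`. -/
def Invariant {n : ℕ} (S : Subgroup (Equiv.Perm (Fin n))) (W : Submodule ℝ (Fin n → ℝ)) : Prop :=
  ∀ σ ∈ S, ∀ x ∈ W, (fun i => x (σ⁻¹ i)) ∈ W

def Irreducible {n : ℕ} (S : Subgroup (Equiv.Perm (Fin n))) (W : Submodule ℝ (Fin n → ℝ)) : Prop :=
  W ≠ ⊥ ∧ Invariant S W ∧ ∀ U ≤ W, Invariant S U → U = ⊥ ∨ U = W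

private def nb : Fin 15 → List (Fin 15) :=
  ![[1, 3, 5, 7], [0, 4, 5, 11], [3, 4, 12, 13], [0, 2, 7, 12], [1, 2, 11, 13], [0, 1, 6, 9],
    [5, 8, 9, 13], [0, 3, 8, 14], [6, 7, 13, 14], [5, 6, 10, 12], [9, 11, 12, 14], [1, 4, 10, 14],
    [2, 3, 9, 10], [2, 4, 6, 8], [7, 8, 10, 11]]

private def G : SimpleGraph (Fin 15) where
  Adj i j := j ∈ nb i
  symm := ⟨by decide⟩
  loopless := ⟨by decide⟩

private instance : DecidableRel G.Adj := fun i j => inferInstanceAs (Decidable (j ∈ nb i))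

private def a : Equiv.Perm (Fin 15) :=
  ⟨![5, 6, 7, 0, 8, 9, 10, 1, 11, 12, 2, 13, 3, 14, 4],
   ![3, 7, 10, 12, 14, 0, 1, 2, 4, 5, 6, 8, 9, 11, 13], by decide, by decide⟩

private def b : Equiv.Perm (Fin 15) :=
  ⟨![14, 11, 13, 8, 4, 10, 12, 7, 3, 9, 5, 1, 6, 2, 0],
   ![14, 11, 13, 8, 4, 10, 12, 7, 3, 9, 5, 1, 6, 2, 0], by decide, by decide⟩

private def a6 : Equiv.Perm (Fin 6) := ⟨![1, 2, 3, 4, 0, 5], ![4, 0, 1, 2, 3, 5], by decide, by decide⟩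
private def b6 : Equiv.Perm (Fin 6) := ⟨![5, 4, 2, 3, 1, 0], ![5, 4, 2, 3, 1, 0], by decide, by decide⟩
private def p : Fin 15 → Fin 6 := ![0, 0, 0, 0, 0, 1, 1, 1, 1, 2, 2, 2, 3, 3, 4]
private def q : Fin 15 → Fin 6 := ![1, 2, 3, 4, 5, 2, 3, 4, 5, 3, 4, 5, 4, 5, 5]

private def S : Subgroup (Equiv.Perm (Fin 15)) := Subgroup.closure {a, b}

private def ev : List ℕ → Equiv.Perm (Fin 15)
  | [] => 1
  | c :: w => (if c = 1 then a else b) * ev w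

private def evf : List ℕ → Fin 15 → Fin 15
  | [], i => i
  | c :: w, i => if c = 1 then a (evf w i) else b (evf w i)

private theorem ev_eq (w : List ℕ) (i : Fin 15) : ev w i = evf w i := by
  induction w with
  | nil => rfl
  | cons c w ih => simp only [ev, evf, Equiv.Perm.mul_apply, ih]; split_ifs <;> rfl

private theorem aS : a ∈ S := Subgroup.subset_closure (by simp)
private theorem bS : b ∈ S := Subgroup.subset_closure (by simp)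

private theorem ev_mem (w : List ℕ) : ev w ∈ S := by
  induction w with
  | nil => exact S.one_mem
  | cons c w ih =>
    refine S.mul_mem ?_ ih
    split_ifs
    exacts [aS, bS]

private def words : List (List ℕ) :=
  [[],
   [1],
   [0],
   [1, 1],
   [0, 1],
   [1, 0],
   [1, 1, 1],
   [0, 1, 1],
   [1, 0, 1],
   [1, 1, 0],
   [0, 1, 0],
   [1, 1, 1, 1],
   [0, 1, 1, 1],
   [1, 0, 1, 1],
   [1, 1, 0, 1],
   [0, 1, 0, 1],
   [1, 1, 1, 0],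
   [0, 1, 1, 0],
   [1, 0, 1, 0],
   [1, 0, 1, 1, 1],
   [1, 1, 0, 1, 1],
   [0, 1, 0, 1, 1],
   [1, 1, 1, 0, 1],
   [0, 1, 1, 0, 1],
   [0, 1, 1, 1, 0],
   [1, 0, 1, 1, 0],
   [1, 1, 0, 1, 0],
   [1, 1, 0, 1, 1, 1],
   [0, 1, 0, 1, 1, 1],
   [1, 1, 1, 0, 1, 1],
   [0, 1, 1, 0, 1, 1],
   [0, 1, 1, 1, 0, 1],
   [1, 0, 1, 1, 1, 0],
   [1, 1, 0, 1, 1, 0],
   [0, 1, 0, 1, 1, 0],
   [1, 1, 1, 0, 1, 0],
   [0, 1, 1, 0, 1, 0],
   [1, 1, 1, 0, 1, 1, 1],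
   [0, 1, 1, 0, 1, 1, 1],
   [0, 1, 1, 1, 0, 1, 1],
   [1, 0, 1, 1, 1, 0, 1],
   [1, 1, 0, 1, 1, 1, 0],
   [0, 1, 0, 1, 1, 1, 0],
   [1, 1, 1, 0, 1, 1, 0],
   [0, 1, 1, 0, 1, 1, 0],
   [0, 1, 1, 1, 0, 1, 0],
   [0, 1, 1, 1, 0, 1, 1, 1],
   [1, 0, 1, 1, 1, 0, 1, 1],
   [1, 1, 0, 1, 1, 1, 0, 1],
   [0, 1, 0, 1, 1, 1, 0, 1],
   [0, 1, 1, 0, 1, 1, 1, 0],
   [0, 1, 1, 1, 0, 1, 1, 0],
   [1, 0, 1, 1, 1, 0, 1, 1, 1],
   [1, 1, 0, 1, 1, 1, 0, 1, 1],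
   [0, 1, 0, 1, 1, 1, 0, 1, 1],
   [0, 1, 1, 0, 1, 1, 1, 0, 1],
   [1, 0, 1, 1, 1, 0, 1, 1, 0],
   [1, 1, 0, 1, 1, 1, 0, 1, 1, 1],
   [0, 1, 0, 1, 1, 1, 0, 1, 1, 1],
   [0, 1, 1, 0, 1, 1, 1, 0, 1, 1]]

private theorem arcs : ∀ i j, G.Adj i j → ∃ w ∈ words, evf w 0 = i ∧ evf w 1 = j := by
  decide +kernel

private def T (c : Fin 6 → ℝ) : Fin 15 → ℝ := fun v => c (p v) + c (q v)

private def W : Submodule ℝ (Fin 15 → ℝ) where
  carrier := {x | ∃ c : Fin 6 → ℝ, ∑ i, c i = 0 ∧ x = T c}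
  add_mem' := by
    rintro _ _ ⟨c, hc, rfl⟩ ⟨d, hd, rfl⟩
    exact ⟨c + d, by simp [Finset.sum_add_distrib, hc, hd], by ext v; simp [T]; ring⟩
  zero_mem' := ⟨0, by simp, by ext v; simp [T]⟩
  smul_mem' := by
    rintro r _ ⟨c, hc, rfl⟩
    exact ⟨r • c, by simp [← Finset.mul_sum, hc], by ext v; simp [T]; ring⟩

private theorem Ta (c : Fin 6 → ℝ) (v : Fin 15) : T c (a v) = T (c ∘ a6) v := by
  have : ∀ v, (p (a v) = a6 (p v) ∧ q (a v) = a6 (q v)) ∨ (p (a v) = a6 (q v) ∧ q (a v) = a6 (p v)) := by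
    decide
  rcases this v with h | h <;> simp [T, h.1, h.2, add_comm]

private theorem Tb (c : Fin 6 → ℝ) (v : Fin 15) : T c (b v) = T (c ∘ b6) v := by
  have : ∀ v, (p (b v) = b6 (p v) ∧ q (b v) = b6 (q v)) ∨ (p (b v) = b6 (q v) ∧ q (b v) = b6 (p v)) := by
    decide
  rcases this v with h | h <;> simp [T, h.1, h.2, add_comm]

private theorem good (σ : Equiv.Perm (Fin 15)) (h : σ ∈ S) :
    (∀ i j, G.Adj (σ i) (σ j) ↔ G.Adj i j) ∧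
      ∃ τ : Equiv.Perm (Fin 6), ∀ c v, T c (σ v) = T (c ∘ τ) v := by
  induction h using Subgroup.closure_induction with
  | mem x hx =>
    rcases hx with rfl | rfl
    · exact ⟨by decide +kernel, a6, Ta⟩
    · exact ⟨by decide +kernel, b6, Tb⟩
  | one => exact ⟨fun _ _ => Iff.rfl, 1, fun _ _ => rfl⟩
  | mul x y _ _ hx hy =>
    obtain ⟨h1, τ, h2⟩ := hx
    obtain ⟨h3, τ', h4⟩ := hy
    exact ⟨fun i j => (h1 _ _).trans (h3 i j), τ * τ', fun c v => (h2 c _).trans (h4 _ v)⟩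
  | inv x _ hx =>
    obtain ⟨h1, τ, h2⟩ := hx
    refine ⟨fun i j => by simpa using (h1 (x⁻¹ i) (x⁻¹ j)).symm, τ⁻¹, fun c v => ?_⟩
    have := h2 (c ∘ ⇑τ⁻¹) (x⁻¹ v)
    rw [show x (x⁻¹ v) = v by simp] at this
    rw [this]
    congr 1
    ext i
    simp

theorem result : ∃ (n : ℕ) (G : SimpleGraph (Fin n)) (_ : DecidableRel G.Adj)
    (S : Subgroup (Equiv.Perm (Fin n))) (W : Submodule ℝ (Fin n → ℝ)),
    G.Connected ∧ (∀ σ ∈ S, ∀ i j, G.Adj (σ i) (σ j) ↔ G.Adj i j) ∧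
    (∀ i j k l, G.Adj i j → G.Adj k l → ∃ σ ∈ S, σ i = k ∧ σ j = l) ∧
    Irreducible S W ∧ ∀ t : ℝ, ¬ ∀ x ∈ W, (G.adjMatrix ℝ).mulVec x = t • x := by
  refine ⟨15, G, inferInstance, S, W, by decide +kernel, fun σ h => (good σ h).1, ?_,
    ⟨?_, ?_, ?_⟩, ?_⟩
  · intro i j k l h1 h2
    obtain ⟨w, _, e1, e2⟩ := arcs i j h1
    obtain ⟨u, _, e3, e4⟩ := arcs k l h2
    rw [← ev_eq] at e1 e2 e3 e4
    refine ⟨ev u * (ev w)⁻¹, S.mul_mem (ev_mem u) (S.inv_mem (ev_mem w)), ?_, ?_⟩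
    · rw [← e1, ← e3]; simp
    · rw [← e2, ← e4]; simp
  · intro h
    have : T ![1, 0, -1, 0, 0, 0] ∈ W := ⟨_, by simp [Fin.sum_univ_six], rfl⟩
    rw [h, Submodule.mem_bot] at this
    simpa [T, p, q] using congrFun this 0
  · rintro σ hσ _ ⟨c, hc, rfl⟩
    obtain ⟨τ, h⟩ := (good _ (S.inv_mem hσ)).2
    exact ⟨c ∘ τ, by rw [← hc]; exact Equiv.sum_comp τ c, funext fun v => h c v⟩
  · intro U hU hI
    rw [or_iff_not_imp_left]
    intro hne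
    have ca : ∀ c, T c ∈ U → T (c ∘ a6) ∈ U := fun c h => by
      have := hI _ (S.inv_mem aS) _ h
      simpa [Ta] using this
    have cb : ∀ c, T c ∈ U → T (c ∘ b6) ∈ U := fun c h => by
      have := hI _ (S.inv_mem bS) _ h
      simpa [Tb] using this
    have sa : ∀ c : Fin 6 → ℝ, ∑ i, c i = 0 → ∑ i, (c ∘ a6) i = 0 := fun c h => by
      rw [← h]; exact Equiv.sum_comp a6 c
    have sb : ∀ c : Fin 6 → ℝ, ∑ i, c i = 0 → ∑ i, (c ∘ b6) i = 0 := fun c h => by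
      rw [← h]; exact Equiv.sum_comp b6 c
    let u : Fin 6 → ℝ := ![-1, -1, -1, -1, -1, 5]
    have key : ∀ c : Fin 6 → ℝ, ∑ i, c i = 0 → T c ∈ U → c 5 ≠ 0 → T u ∈ U := by
      intro c hc h1 h5
      have h2 := ca _ h1
      have h3 := ca _ h2
      have h4 := ca _ h3
      have h6 := ca _ h4
      have := U.smul_mem (c 5)⁻¹ (U.add_mem (U.add_mem (U.add_mem (U.add_mem h1 h2) h3) h4) h6)
      convert this using 1
      rw [Fin.sum_univ_six] at hc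
      ext v
      fin_cases v <;> simp [T, p, q, u, a6] <;> field_simp <;> linarith
    obtain ⟨x, hx, x0⟩ := (Submodule.ne_bot_iff U).1 hne
    obtain ⟨c, hc, rfl⟩ := hU hx
    have hu : T u ∈ U := by
      by_contra hn
      have z : ∀ c : Fin 6 → ℝ, ∑ i, c i = 0 → T c ∈ U → c 5 = 0 := fun c h1 h2 => by
        by_contra h; exact hn (key c h1 h2 h)
      have z0 : ∀ c : Fin 6 → ℝ, ∑ i, c i = 0 → T c ∈ U → c 0 = 0 := fun c h1 h2 =>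
        z _ (sb c h1) (cb c h2)
      have e0 : c 0 = 0 := z0 c hc hx
      have e1 : c 1 = 0 := z0 _ (sa _ hc) (ca _ hx)
      have e2 : c 2 = 0 := z0 _ (sa _ (sa _ hc)) (ca _ (ca _ hx))
      have e3 : c 3 = 0 := z0 _ (sa _ (sa _ (sa _ hc))) (ca _ (ca _ (ca _ hx)))
      have e4 : c 4 = 0 := z0 _ (sa _ (sa _ (sa _ (sa _ hc)))) (ca _ (ca _ (ca _ (ca _ hx))))
      have e5 : c 5 = 0 := z c hc hx
      apply x0
      ext v
      fin_cases v <;> simp [T, p, q, e0, e1, e2, e3, e4, e5]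
    refine le_antisymm hU ?_
    rintro _ ⟨d, hd, rfl⟩
    have u0 := cb _ hu
    have u4 := ca _ u0
    have u3 := ca _ u4
    have u2 := ca _ u3
    have u1 := ca _ u2
    have := U.smul_mem (1 / 6 : ℝ) (U.add_mem (U.add_mem (U.add_mem (U.add_mem (U.add_mem
      (U.smul_mem (d 0) u0) (U.smul_mem (d 1) u1)) (U.smul_mem (d 2) u2)) (U.smul_mem (d 3) u3))
      (U.smul_mem (d 4) u4)) (U.smul_mem (d 5) hu))
    convert this using 1
    rw [Fin.sum_univ_six] at hd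
    ext v
    fin_cases v <;> simp [T, p, q, u, a6, b6] <;> linarith
  · intro t h
    have := congrFun (h (T ![0, 0, 1, -1, 0, 0]) ⟨_, by simp [Fin.sum_univ_six], rfl⟩) 0
    rw [SimpleGraph.adjMatrix_mulVec_apply,
      show G.neighborFinset 0 = {1, 3, 5, 7} by decide +kernel] at this
    simp [T, p, q] at this

end Pool.Agent.Results.MP_63f2bb_co.Unbalanced
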